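import Pool.Agent.TH965.St.Transfer

open Pool.Agent.TH965.Stk

namespace Pool.Agent.Results.MP_46b841_nt.TotallyComplexFields

/-- Let `T` be a subgroup of the multiplicative group of complex numbers closed under square roots
(for instance the roots of unity of 2-power order, or the algebraic numbers). Stark's conjecture
modulo `T` for all Artin characters of all number fields is equivalent to its special case of the
linear characters of totally complex number fields with at least `N` complex places and of the
trivial characters of number fields with at least `N` complex places. -/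
theorem result (T : Subgroup ℂˣ) (hT : ∀ x : ℂˣ, x * x ∈ T → x ∈ T)
    (A : (ℂ ≃+* ℂ) → Family ℂˣ) (N : ℕ) :
    (∀ σ K, IsNF K → ∀ f ∈ Virt K, (A σ).D K f ∈ T) ↔
    (∀ σ K, IsNF K → N ≤ r2 K → ∀ ψ : LinChar K,
      (IsTC K ∨ ∀ g, ψ.hom g = 1) → (A σ).D K ψ.fn ∈ T) :=
  ⟨fun H σ => (main3 T hT (A σ) N).1 (H σ), fun H σ => (main3 T hT (A σ) N).2 (H σ)⟩

end Pool.Agent.Results.MP_46b841_nt.TotallyComplexFields
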